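import Pool.Agent.Lib.MP_a2d0bb_al.Fil.Wr

/-!
Groups of permutations of a filtered set in which the words `uw` are universal.
-/

set_option autoImplicit false

open Equiv
open scoped commutatorElement

noncomputable section

namespace Pool.Agent.Lib.MP_a2d0bb_al.Fil

variable {X : Type*}

/-- The hypotheses on the filtration `B` and the group `G`. -/
structure Fr (B : ℤ → Set X) (G : Subgroup (Perm X)) (a π τ : Perm X) : Prop where
  mono : Monotone B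
  cov : ∀ x, ∃ k, x ∈ B k
  bd : ∀ g ∈ G, ∀ k, ∃ l, ∀ x ∈ B k, g x ∈ B l
  loc : ∀ f : Perm X, (∀ k, ∃ g ∈ G, ∀ x ∈ B k, f x = g x) →
    (∀ k, ∃ l, ∀ x, f x ∈ B k → x ∈ B l) → f ∈ G
  germ : ∀ f ∈ G, ∃ g ∈ G, ∃ k l, g ∈ Sup (B l) ∧ ∀ x ∈ B k, g x = f x
  nor : ∀ g ∈ G, a * g * a⁻¹ ∈ G ∧ a⁻¹ * g * a ∈ G
  dil : ∀ k x, a x ∈ B (k + 1) ↔ x ∈ B k
  pm : π ∈ G
  ps : π ∈ Sup (B 3 \ B 0)
  pp : ∀ x, x ∉ B 1 → π x ∉ B 2
  tm : τ ∈ G
  ts : τ ∈ Sup (B 1)
  tw : ∀ n : ℕ, ∀ x ∈ B 0, (τ ^ (n + 1)) x ∉ B 0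

namespace Fr

variable {B : ℤ → Set X} {G : Subgroup (Perm X)} {a π τ : Perm X} (F : Fr B G a π τ)
include F

theorem up {k l : ℤ} {x : X} (hx : x ∈ B k) (h : k ≤ l) : x ∈ B l := F.mono h hx

theorem dilz (n k : ℤ) (x : X) : (a ^ n) x ∈ B (k + n) ↔ x ∈ B k := by
  induction n using Int.induction_on generalizing x with
  | zero => simp
  | succ n ih => rw [add_comm (n : ℤ) 1, zpow_one_add, Perm.mul_apply, add_comm 1, ← add_assoc,
      F.dil, ih]
  | pred n ih =>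
    rw [← F.dil, ← Perm.mul_apply, ← zpow_one_add, ← ih,
      show 1 + (-(n : ℤ) - 1) = -n by ring, show k + (-(n : ℤ) - 1) + 1 = k + -n by ring]

theorem cjm {g : Perm X} (hg : g ∈ G) (n : ℤ) : cj a n g ∈ G := by
  induction n using Int.induction_on with
  | zero => rwa [cj_zero]
  | succ n ih => rw [add_comm, ← cj_cj]; simpa [cj] using (F.nor _ ih).1
  | pred n ih => rw [sub_eq_neg_add, ← cj_cj]; simpa [cj] using (F.nor _ ih).2

theorem cj_ball {g : Perm X} {l l' : ℤ} (hg : g ∈ Sup (B l)) (n : ℤ) (h : l + n ≤ l') :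
    cj a n g ∈ Sup (B l') :=
  Sup.conj hg fun x hx => F.up ((F.dilz n l x).2 hx) h

theorem mv {k l k' l' : ℤ} (n : ℤ) (h : l + n ≤ l') (h' : k' ≤ k + n) :
    ∀ x ∈ B l \ B k, (a ^ n) x ∈ B l' \ B k' := fun x hx =>
  ⟨F.up ((F.dilz n l x).2 hx.1) h, fun e => hx.2 ((F.dilz n k x).1 (F.up e h'))⟩

theorem sub {k l k' l' : ℤ} (h : l ≤ l') (h' : k' ≤ k) : B l \ B k ⊆ B l' \ B k' := fun _ hx =>
  ⟨F.up hx.1 h, fun e => hx.2 (F.up e h')⟩

theorem cj_sh {g : Perm X} {k l k' l' : ℤ} (hg : g ∈ Sup (B l \ B k)) (n : ℤ) (h : l + n ≤ l')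
    (h' : k' ≤ k + n) : cj a n g ∈ Sup (B l' \ B k') := Sup.conj hg (F.mv n h h')

theorem push (k l : ℤ) : ∃ κ ∈ G, κ ∈ Sup (B (l + 1) \ B k) ∧ ∀ x, x ∉ B (k + 1) → κ x ∉ B l := by
  rcases le_total l (k + 1) with h | h
  · exact ⟨1, G.one_mem, (Sup _).one_mem, fun x hx e => hx (F.up e h)⟩
  induction l, h using Int.leInduction with
  | base => exact ⟨1, G.one_mem, (Sup _).one_mem, fun x hx e => hx e⟩
  | succ l hl ih =>
    obtain ⟨κ, h1, h2, h3⟩ := ih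
    refine ⟨cj a (l - 1) π * κ, G.mul_mem (F.cjm F.pm _) h1, (Sup _).mul_mem
      (F.cj_sh F.ps _ (by omega) (by omega)) (Sup.mono (F.sub (by omega) le_rfl) h2), fun x hx e => ?_⟩
    rw [cj, Perm.mul_apply, Perm.mul_apply, Perm.mul_apply,
      show l + 1 = 2 + (l - 1) by ring, F.dilz] at e
    refine F.pp _ (fun e' => h3 x hx ?_) e
    simpa using (F.dilz (l - 1) 1 _).2 e'

theorem ext {f : Perm X} (hf : f ∈ G) (k : ℤ) :
    ∃ g ∈ G, ∃ l, g ∈ Sup (B l) ∧ ∀ x ∈ B k, g x = f x := by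
  obtain ⟨g, hg, k₀, l₀, h1, h2⟩ := F.germ f hf
  obtain ⟨κ, h3, h4, h5⟩ := F.push (k₀ - 1) k
  have hh : g⁻¹ * f ∈ G := G.mul_mem (G.inv_mem hg) hf
  obtain ⟨l, h6⟩ := F.bd _ hh (k + 1)
  refine ⟨g * ((g⁻¹ * f) * κ * (g⁻¹ * f)⁻¹ * κ⁻¹), G.mul_mem hg (G.mul_mem (G.mul_mem
    (G.mul_mem hh h3) (G.inv_mem hh)) (G.inv_mem h3)), max l₀ (max l (k + 1)), ?_, fun x hx => ?_⟩
  · refine (Sup _).mul_mem (Sup.mono (F.mono (by omega)) h1) ((Sup _).mul_mem
      (Sup.conj h4 fun x hx => F.up (h6 x hx.1) (by omega)) ((Sup _).inv_mem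
        (Sup.mono (fun x hx => F.up hx.1 (by omega)) h4)))
  · have e1 : κ⁻¹ x ∈ B k₀ := by
      by_contra e
      exact h5 (κ⁻¹ x) (by simpa using e) (by simpa using hx)
    have e2 : (g⁻¹ * f)⁻¹ (κ⁻¹ x) = κ⁻¹ x := by
      rw [Perm.inv_eq_iff_eq, Perm.mul_apply, ← h2 _ e1]; simp
    simp only [Perm.mul_apply, e2]
    simp

/-! ### Blocks -/

theorem wd : Wd (a ^ (14 : ℤ)) (B 14 \ B 0) := by
  intro j x hx hj
  rw [← zpow_mul] at hj
  have h := F.mv (14 * j) le_rfl le_rfl x hx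
  by_contra e
  rcases lt_or_gt_of_ne e with e | e
  · exact hj.2 (F.up h.1 (by omega))
  · exact h.2 (F.up hj.1 (by omega))

theorem blk {j k : ℤ} {y : X} (hy : y ∈ B 14 \ B 0) (h : ((a ^ (14 : ℤ)) ^ j) y ∈ B k) :
    14 * j < k := by
  rw [← zpow_mul] at h
  by_contra e
  exact (F.mv (14 * j) le_rfl le_rfl y hy).2 (F.up h (by omega))

theorem tr_eq (γ : ℤ → Sup (B 14 \ B 0)) {N : ℕ} {x : X} (hx : x ∈ B N) :
    wr F.wd (tr γ N) x = wr F.wd γ x :=
  wr_tr F.wd γ fun j y hy e => by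
    have := F.blk hy (e ▸ hx)
    omega

theorem gl_mem (γ : ℤ → Sup (B 14 \ B 0)) (h1 : ∀ j, (γ j : Perm X) ∈ G) (h2 : ∀ j < 0, γ j = 1) :
    wr F.wd γ ∈ G := by
  refine F.loc _ (fun k => ⟨wr F.wd (tr γ k.toNat), wr_mem _ G (Finset.Ico 0 k.toNat) _
    (fun j => ?_) fun j hj => ?_, fun x hx => (F.tr_eq γ (F.up hx (by omega))).symm⟩)
    fun k => ⟨k + 14, fun x hx => ?_⟩
  · rw [cj_zpow]
    refine F.cjm ?_ _
    unfold tr
    split_ifs
    exacts [h1 j, G.one_mem]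
  · unfold tr
    split_ifs with h
    · exact h2 j (by simp only [Finset.mem_Ico] at hj; omega)
    · rfl
  · rcases orb_cases (a ^ (14 : ℤ)) (B 14 \ B 0) x with ⟨j, y, hy, rfl⟩ | h
    · rw [wr_in F.wd γ j hy] at hx
      have := F.blk (Sup.maps (γ j).2 hy) hx
      rw [← zpow_mul]
      exact F.up (F.mv (14 * j) le_rfl le_rfl y hy).1 (by omega)
    · rw [wr_out F.wd γ h] at hx
      exact F.up hx (by omega)

theorem gl_sup (γ : ℤ → Sup (B 14 \ B 0)) (h2 : ∀ j < 1, γ j = 1) : wr F.wd γ ∈ Sup (B 14)ᶜ :=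
  fun x hx => wr_fix F.wd γ fun j y hy e => by
    have := F.blk hy (e ▸ not_not.1 hx)
    rw [h2 j (by omega)]; rfl

/-- All the commutators of elements supported in the cores of the blocks. -/
theorem code (u : ℕ → ℕ → ℤ → Perm X) (h1 : ∀ i e j, u i e j ∈ G)
    (h2 : ∀ i e j, u i e j ∈ Sup (B 13 \ B 1)) (h3 : ∀ i e, ∀ j < 0, u i e j = 1) :
    ∃ b ∈ G, (∀ x ∈ B 0, b x = τ x) ∧ ∀ (i : ℕ) (γ : ℤ → Sup (B 14 \ B 0)),
      (∀ j, (γ j : Perm X) = ⁅u i 0 j, u i 1 j⁆) → tri a b i = wr F.wd γ := by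
  obtain ⟨s, s1, s2, s3⟩ := F.push 0 13
  have s2' : s ∈ Sup (B 14 \ B 0) := s2
  have hI : Wd s (B 13 \ B 1) := wd_of fun n x hx e => by
    have : (s ^ (n + 1)) x ∉ B 13 := by
      clear e
      induction n with
      | zero => simpa using s3 x hx.2
      | succ n ih => rw [pow_succ', Perm.mul_apply]; exact s3 _ fun e => ih (F.up e (by omega))
    exact this e.1
  let β : ℤ → ℕ → Sup (B 13 \ B 1) := fun j m =>
    ⟨u (m / 6) (m % 2) (j + (m / 2 % 3 : ℕ) - (18 * (m / 6 : ℕ) + 20)), h2 _ _ _⟩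
  have β1 : ∀ (j : ℤ) (m : ℕ), j < m → β j m = 1 := fun j m h => Subtype.ext (h3 _ _ _ (by omega))
  have β2 : ∀ j, j < 0 → sl (β j) = 1 := fun j hj => funext fun n => by
    rcases sl_cases (β j) n with ⟨m, rfl⟩ | e
    · rw [sl_pow, β1 j m (by omega)]; rfl
    · exact e
  let D : ℤ → Sup (B 14 \ B 0) := fun j => ⟨wr hI (sl (β j)), fun x hx => wr_fix hI _
    fun n y hy e => absurd (e ▸ Sup.maps ((Sup _).zpow_mem s2' n)
      (F.sub (by omega) (by omega) hy)) hx⟩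
  have D1 : ∀ j, (D j : Perm X) ∈ G := fun j => by
    refine wr_mem hI G ((Finset.range (j.toNat + 1)).image fun m => 2 ^ m) _ (fun n => ?_)
      fun n hn => ?_
    · refine G.mul_mem (G.mul_mem (G.zpow_mem s1 n) ?_) (G.inv_mem (G.zpow_mem s1 n))
      rcases sl_cases (β j) n with ⟨m, rfl⟩ | e
      · rw [sl_pow]; exact h1 _ _ _
      · rw [e]; exact G.one_mem
    · rcases sl_cases (β j) n with ⟨m, rfl⟩ | e
      · rw [sl_pow]
        refine β1 j m (lt_of_not_ge fun e => hn (Finset.mem_image.2 ⟨m, ?_, rfl⟩))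
        rw [Finset.mem_range]; omega
      · exact e
  let σ : ℤ → Sup (B 14 \ B 0) := fun j =>
    if j % 3 = 2 ∧ 0 ≤ j then ⟨s, s2'⟩ else if j % 3 = 0 then D (j - 1) else 1
  have σ1 : ∀ j < 2, σ j = 1 := fun j hj => by
    simp only [σ]
    rw [if_neg (by omega)]
    split_ifs with h
    · exact Subtype.ext (by simp only [D]; rw [β2 _ (by omega), map_one]; rfl)
    · rfl
  have σ2 : wr F.wd σ ∈ G := F.gl_mem σ (fun j => by
    simp only [σ]
    split_ifs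
    exacts [s1, D1 _, G.one_mem]) fun j hj => σ1 j (by omega)
  have σ3 := F.gl_sup σ fun j hj => σ1 j (by omega)
  have σ4 := F.gl_sup (fun j => σ (j - -1)) fun j hj => σ1 _ (by omega)
  have t1 : cj (a ^ (14 : ℤ)) (-1) τ ∈ Sup (B 0) := by
    rw [cj_zpow]; exact F.cj_ball F.ts _ (by omega)
  have key : ∀ n, cm (τ * wr F.wd σ) (cj (a ^ (14 : ℤ)) (-1) (τ * wr F.wd σ)) n =
      wr F.wd fun j => cm (σ j) (σ (j - -1)) n := by
    intro n
    let Φ : Sup (B 14) × Sup (B 14)ᶜ →* Perm X := MonoidHom.noncommCoprod (Sup _).subtype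
      (Sup _).subtype fun p q => Sup.comm p.2 q.2 fun x hx e => e hx
    have e := map_cm Φ (⟨τ, Sup.mono (F.mono (by omega)) F.ts⟩, ⟨_, σ3⟩)
      (⟨_, Sup.mono (F.mono (by omega)) t1⟩, ⟨_, σ4⟩) n
    have e' : ∀ p q : Sup (B 14) × Sup (B 14)ᶜ, Φ (cm p q n) =
        cm (p.1 : Perm X) q.1 n * cm (p.2 : Perm X) q.2 n := fun p q =>
      congrArg₂ (· * ·) (map_cm ((Sup _).subtype.comp (MonoidHom.fst _ _)) p q n)
        (map_cm ((Sup _).subtype.comp (MonoidHom.snd _ _)) p q n)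
    rw [e', cm_wd (wd_of F.tw) t1, one_mul, ← map_cm] at e
    rw [cj_mul, wr_shift]
    refine e.symm.trans (congrArg _ (funext fun j => ?_))
    exact map_cm (Pi.evalMonoidHom (fun _ => Sup (B 14 \ B 0)) j) _ _ n
  refine ⟨τ * wr F.wd σ, G.mul_mem F.tm σ2, fun x hx => ?_, fun i γ hγ => ?_⟩
  · rw [Perm.mul_apply, σ3 x (not_not.2 (F.up hx (by omega)))]
  have k2 : ∀ ρ : ℕ, ρ < 3 → bas a (τ * wr F.wd σ) i ρ =
      wr F.wd fun j => if j % 3 = ρ then γ j else 1 := by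
    intro ρ hρ
    rw [bas, key, wr_shift]
    refine congrArg _ (funext fun j => ?_)
    obtain ⟨j', hj⟩ : ∃ j', j' = j - (ρ - (18 * i + 20)) := ⟨_, rfl⟩
    rw [← hj]
    split_ifs with h
    · by_cases h0 : 0 ≤ j'
      · have e1 : σ j' = ⟨s, s2'⟩ := if_pos ⟨by omega, h0⟩
        have e2 : σ (j' - -1) = D j' := by
          simp only [σ]
          rw [if_neg (by omega), if_pos (by omega)]
          congr 1; ring
        rw [e1, e2]
        refine Subtype.ext ((map_cm (Sup _).subtype _ _ _).trans ((cm_sl hI _ _).trans ?_))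
        rw [hγ]
        simp only [β]
        congr 2 <;> omega
      · rw [σ1 j' (by omega), cm_one_left]
        exact Subtype.ext (by rw [hγ, h3 i 0 j (by omega)]; simp)
    · by_cases h0 : j' % 3 = 0
      · have : σ (j' - -1) = 1 := by
          simp only [σ]
          rw [if_neg (by omega), if_neg (by omega)]
        rw [this, cm_one_right]
      · have : σ j' = 1 := by
          simp only [σ]
          rw [if_neg (by omega), if_neg h0]
        rw [this, cm_one_left]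
  rw [tri, k2 0 (by omega), k2 1 (by omega), k2 2 (by omega), ← map_mul, ← map_mul]
  refine congrArg _ (funext fun j => ?_)
  have : j % 3 = 0 ∨ j % 3 = 1 ∨ j % 3 = 2 := by omega
  rcases this with h | h | h <;> simp only [Pi.mul_apply, h] <;> simp

end Fr

end Pool.Agent.Lib.MP_a2d0bb_al.Fil
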