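import Pool.Agent.Lib.MP_a2d0bb_al.Fil.Abs

/-!
The swindle, the fragmentation and the normalisation.
-/

set_option autoImplicit false

open Equiv
open scoped commutatorElement

noncomputable section

namespace Pool.Agent.Lib.MP_a2d0bb_al.Fil

namespace Fr

variable {X : Type*} {B : ℤ → Set X} {G : Subgroup (Perm X)} {a π τ : Perm X} (F : Fr B G a π τ)
include F

theorem cj_wr (n : ℤ) (γ δ : ℤ → Sup (B 14 \ B 0)) {k l : ℤ} (h1 : ∀ j, (γ j : Perm X) ∈ Sup (B l \ B k))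
    (h2 : ∀ j, (δ j : Perm X) = cj a n (γ j)) (e1 : l ≤ 14) (e2 : 0 ≤ k) (e3 : l + n ≤ 14)
    (e4 : 0 ≤ k + n) : cj a n (wr F.wd γ) = wr F.wd δ :=
  (wr_conj F.wd ((Commute.refl a).zpow_zpow n 14) γ δ (F.sub e1 e2) (F.mv n e3 e4) h1 h2).symm

/-- The swindle. -/
theorem swindle (h : ℤ → Sup (B 14 \ B 0)) (h1 : ∀ j, (h j : Perm X) ∈ G)
    (h2 : ∀ j, (h j : Perm X) ∈ Sup (B 12 \ B 2)) (h3 : ∀ j < 0, h j = 1) :
    ∃ (u : ℕ → ℕ → ℤ → Perm X) (γ δ : ℤ → Sup (B 14 \ B 0)), (∀ i e j, u i e j ∈ G) ∧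
      (∀ i e j, u i e j ∈ Sup (B 13 \ B 1)) ∧ (∀ i e, ∀ j < 0, u i e j = 1) ∧
      (∀ j, (γ j : Perm X) = ⁅u 0 0 j, u 0 1 j⁆) ∧ (∀ j, (δ j : Perm X) = ⁅u 1 0 j, u 1 1 j⁆) ∧
      wr F.wd γ * cj a 10 (wr F.wd δ) = wr F.wd h := by
  obtain ⟨κ, k1, k2, k3⟩ := F.push 1 12
  obtain ⟨θ, t1, t2, t3⟩ := F.push 1 6
  have k2' : κ ∈ Sup (B 13 \ B 1) := k2
  have t2' : θ ∈ Sup (B 13 \ B 1) := Sup.mono (F.sub (by omega) le_rfl) t2
  have p1 : ∀ g ∈ Sup (B 12 \ B 2), κ * g * κ⁻¹ ∈ Sup (B 13 \ B 12) := fun g hg =>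
    Sup.conj hg fun x hx => ⟨(Sup.maps k2' (F.sub (by omega) (by omega) hx)).1, k3 x hx.2⟩
  have p2 : ∀ g ∈ Sup (B 12 \ B 2), cj a (-10) (κ * g * κ⁻¹) ∈ Sup (B 3 \ B 2) := fun g hg =>
    F.cj_sh (p1 g hg) _ (by omega) (by omega)
  have p3 : ∀ g ∈ Sup (B 12 \ B 2), θ * cj a (-10) (κ * g * κ⁻¹) * θ⁻¹ ∈ Sup (B 7 \ B 6) :=
    fun g hg => Sup.conj (p2 g hg) fun x hx =>
      ⟨(Sup.maps t2 (F.sub (by omega) (by omega) hx)).1, t3 x hx.2⟩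
  let ν : Perm X → Perm X := fun g => cj a (-4) (θ * cj a (-10) (κ * g * κ⁻¹) * θ⁻¹)
  have p4 : ∀ g ∈ Sup (B 12 \ B 2), ν g ∈ Sup (B 12 \ B 2) := fun g hg =>
    F.cj_sh (p3 g hg) _ (by omega) (by omega)
  have cG : ∀ c ∈ G, ∀ g ∈ G, c * g * c⁻¹ ∈ G := fun c hc g hg =>
    G.mul_mem (G.mul_mem hc hg) (G.inv_mem hc)
  let U : ℕ → Perm X := fun n => Nat.rec 1 (fun n g => h n * ν g) n
  have U1 : ∀ n, U n ∈ G ∧ U n ∈ Sup (B 12 \ B 2) := fun n => by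
    induction n with
    | zero => exact ⟨G.one_mem, (Sup _).one_mem⟩
    | succ n ih => exact ⟨G.mul_mem (h1 n) (F.cjm (cG _ t1 _ (F.cjm (cG _ k1 _ ih.1) _)) _),
        (Sup _).mul_mem (h2 n) (p4 _ ih.2)⟩
  let u : ℤ → Perm X := fun j => U (j + 1).toNat
  have u0 : ∀ j < 0, u j = 1 := fun j hj => by
    simp only [u]; rw [show (j + 1).toNat = 0 by omega]; rfl
  have u1 : ∀ j, u j = h j * ν (u (j - 1)) := fun j => by
    rcases lt_or_ge j 0 with e | e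
    · rw [u0 j e, u0 _ (by omega), h3 j e]; simp [ν, cj]
    · obtain ⟨n, rfl⟩ := Int.eq_ofNat_of_zero_le e
      simp only [u]
      rw [show ((n : ℤ) + 1).toNat = n + 1 by omega, show ((n : ℤ) - 1 + 1).toNat = n by omega]
  have uS : ∀ j, u j ∈ Sup (B 12 \ B 2) := fun j => (U1 _).2
  let mk : ∀ (γ : ℤ → Perm X) (k l : ℤ), (∀ j, γ j ∈ Sup (B l \ B k)) → l ≤ 14 → 0 ≤ k →
      ℤ → Sup (B 14 \ B 0) := fun γ k l e e1 e2 j => ⟨γ j, Sup.mono (F.sub e1 e2) (e j)⟩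
  let uu := mk u 2 12 uS (by omega) (by omega)
  let y := mk _ 12 13 (fun j => p1 _ (uS j)) (by omega) (by omega)
  let y' := mk _ 2 3 (fun j => p2 _ (uS j)) (by omega) (by omega)
  let z' := mk _ 6 7 (fun j => p3 _ (uS j)) (by omega) (by omega)
  let z := mk _ 2 12 (fun j => p4 _ (uS j)) (by omega) (by omega)
  refine ⟨fun i e j => if j < 0 then 1 else if i = 0 then (if e = 0 then u j else κ) else
    (if e = 0 then y' j else θ), uu * y⁻¹, y' * z'⁻¹, fun i e j => ?_, fun i e j => ?_,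
    fun i e j hj => if_pos hj, fun j => ?_, fun j => ?_, ?_⟩
  · dsimp only
    split_ifs
    exacts [G.one_mem, (U1 _).1, k1, F.cjm (cG _ k1 _ (U1 _).1) _, t1]
  · dsimp only
    split_ifs
    exacts [(Sup _).one_mem, Sup.mono (F.sub (by omega) (by omega)) (uS j), k2',
      Sup.mono (F.sub (by omega) (by omega)) (p2 _ (uS j)), t2']
  · show u j * (κ * u j * κ⁻¹)⁻¹ = _
    by_cases e : j < 0
    · simp [e, u0 j e]
    · simp only [e, if_false, if_true, one_ne_zero, commutatorElement_def]; group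
  · show cj a (-10) (κ * u j * κ⁻¹) * (θ * cj a (-10) (κ * u j * κ⁻¹) * θ⁻¹)⁻¹ = _
    by_cases e : j < 0
    · simp [e, u0 j e, cj]
    · simp only [e, if_false, if_true, one_ne_zero, commutatorElement_def]
      show _ = cj a (-10) (κ * u j * κ⁻¹) * θ * (cj a (-10) (κ * u j * κ⁻¹))⁻¹ * θ⁻¹
      group
  · have e1 : cj a 10 (wr F.wd y') = wr F.wd y := F.cj_wr 10 y' y (fun j => p2 _ (uS j))
      (fun j => by
        show _ = cj a 10 (cj a (-10) _)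
        rw [cj_cj]; exact (cj_zero _ _).symm) (by omega) (by omega) (by omega) (by omega)
    have e2 : cj a (-4) (wr F.wd z') = wr F.wd z := F.cj_wr (-4) z' z (fun j => p3 _ (uS j))
      (fun j => rfl) (by omega) (by omega) (by omega) (by omega)
    have e3 : cj a 10 (wr F.wd z') = wr F.wd fun j => z (j - 1) := by
      rw [← wr_shift, ← e2, cj_zpow, cj_cj]; rfl
    rw [map_mul (wr F.wd) y', map_inv, cj_mul, cj_inv, e1, e3, ← map_inv, ← map_mul, ← map_mul]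
    refine congrArg _ (funext fun j => Subtype.ext ?_)
    show u j * (κ * u j * κ⁻¹)⁻¹ * (κ * u j * κ⁻¹ * (ν (u (j - 1)))⁻¹) = h j
    rw [← mul_assoc, inv_mul_cancel_right, u1 j, mul_inv_cancel_right]

theorem annul (h : ℕ → ℤ → Sup (B 14 \ B 0)) (h1 : ∀ i j, (h i j : Perm X) ∈ G)
    (h2 : ∀ i j, (h i j : Perm X) ∈ Sup (B 12 \ B 2)) (h3 : ∀ i, ∀ j < 0, h i j = 1) :
    ∃ b ∈ G, (∀ x ∈ B 0, b x = τ x) ∧ ∀ i, ann a b i = wr F.wd (h i) := by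
  choose u γ δ a1 a2 a3 a4 a5 a6 using fun i => F.swindle (h i) (h1 i) (h2 i) (h3 i)
  obtain ⟨b, b1, b2, b3⟩ := F.code (fun i => u (i / 2) (i % 2)) (fun i => a1 _ _) (fun i => a2 _ _)
    fun i => a3 _ _
  refine ⟨b, b1, b2, fun i => ?_⟩
  rw [ann, b3 (2 * i) (γ i) fun j => ?_, b3 (2 * i + 1) (δ i) fun j => ?_, a6]
  · rw [a5, show (2 * i + 1) / 2 = i by omega, show (2 * i + 1) % 2 = 1 by omega]
  · rw [a4, show 2 * i / 2 = i by omega, show 2 * i % 2 = 0 by omega]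

omit F in
/-- Bounded displacement at the scale `k`. -/
def St (B : ℤ → Set X) (G : Subgroup (Perm X)) (f : Perm X) (k : ℤ) : Prop :=
  (∃ g ∈ G, g ∈ Sup (B (k + 1)) ∧ ∀ x ∈ B k, g x = f x) ∧ ∀ x, f x ∈ B k → x ∈ B (k + 2)

theorem frag {f : Perm X} (hf : ∀ k : ℕ, St B G f k) :
    ∃ h : ℕ → ℤ → Sup (B 14 \ B 0), (∀ i j, (h i j : Perm X) ∈ G) ∧
      (∀ i j, (h i j : Perm X) ∈ Sup (B 12 \ B 2)) ∧ (∀ i, ∀ j < 0, h i j = 1) ∧
      ∀ b : Perm X, (∀ x ∈ B 0, b x = τ x) → cj a (-2) (wr F.wd (h 0)) *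
        cj a 3 (cj b (-1) (cj a (-3) (wr F.wd (h 1)))) * cj a 7 (wr F.wd (h 2)) = f := by
  choose g g1 g2 g3 using fun m : ℕ => (hf (7 * m + 2)).1
  have g2' : ∀ (m : ℕ) (l : ℤ), 7 * m + 3 ≤ l → ∀ x, x ∉ B l → g m x = x := fun m l e x hx =>
    g2 m x fun e' => hx (F.up e' (by push_cast; omega))
  have g3' : ∀ (m : ℕ) (l : ℤ), l ≤ 7 * m + 2 → ∀ x ∈ B l, g m x = f x := fun m l e x hx =>
    g3 m x (F.up hx (by push_cast; omega))
  have eS : ∀ n : ℕ, g (2 * n + 1) * (g (2 * n))⁻¹ ∈ Sup (B (14 * n + 10) \ B (14 * n)) := by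
    intro n x hx
    rw [Perm.mul_apply]
    by_cases e : x ∈ B (14 * n + 10)
    · have e1 : x ∈ B (14 * n) := by_contra fun e' => hx ⟨e, e'⟩
      have e2 : f⁻¹ x ∈ B (14 * n + 2) := by
        simpa using (hf (14 * n)).2 (f⁻¹ x) (by simpa using e1)
      have e3 : (g (2 * n))⁻¹ x = f⁻¹ x := by
        rw [Perm.inv_eq_iff_eq, g3' _ _ (by push_cast; omega) _ e2]; simp
      rw [e3, g3' _ _ (by push_cast; omega) _ e2]; simp
    · have e3 : (g (2 * n))⁻¹ x = x := by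
        rw [Perm.inv_eq_iff_eq, g2' _ _ (by push_cast; omega) _ e]
      rw [e3, g2' _ _ (by push_cast; omega) _ e]
  have oS : ∀ n : ℕ, (g (2 * n + 1))⁻¹ * g (2 * n + 2) ∈ Sup (B (14 * n + 17) \ B (14 * n + 9)) := by
    intro n x hx
    rw [Perm.mul_apply, Perm.inv_eq_iff_eq]
    by_cases e : x ∈ B (14 * n + 17)
    · have e1 : x ∈ B (14 * n + 9) := by_contra fun e' => hx ⟨e, e'⟩
      rw [g3' _ _ (by push_cast; omega) _ e1, g3' _ _ (by push_cast; omega) _ e1]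
    · rw [g2' _ _ (by push_cast; omega) _ e, g2' _ _ (by push_cast; omega) _ e]
  have lS : cj a 3 τ * g 0 * (cj a 3 τ)⁻¹ ∈ Sup (B 12 \ B 2) := by
    refine Sup.conj (A := B 3) (g2' 0 3 (by simp)) fun x hx => ⟨F.up (Sup.maps
      (F.cj_ball F.ts 3 le_rfl) (F.up hx (by omega))) (by omega), fun e => ?_⟩
    rw [cj, Perm.mul_apply, Perm.mul_apply] at e
    refine F.tw 0 ((a ^ (3 : ℤ))⁻¹ x) ((F.dilz 3 0 _).1 (by simpa using hx)) ?_
    simpa using (F.dilz 3 0 _).1 (F.up e (by omega))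
  let H : ℕ → ℕ → Perm X := fun i n =>
    if i = 0 then cj a (2 - 14 * n) (g (2 * n + 1) * (g (2 * n))⁻¹)
    else if i = 1 then (if n = 0 then cj a 3 τ * g 0 * (cj a 3 τ)⁻¹ else 1)
    else cj a (-7 - 14 * n) ((g (2 * n + 1))⁻¹ * g (2 * n + 2))
  have H1 : ∀ i n, H i n ∈ G := fun i n => by
    simp only [H]
    split_ifs
    exacts [F.cjm (G.mul_mem (g1 _) (G.inv_mem (g1 _))) _, G.mul_mem (G.mul_mem (F.cjm F.tm _)
      (g1 _)) (G.inv_mem (F.cjm F.tm _)), G.one_mem, F.cjm (G.mul_mem (G.inv_mem (g1 _)) (g1 _)) _]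
  have H2 : ∀ i n, H i n ∈ Sup (B 12 \ B 2) := fun i n => by
    simp only [H]
    split_ifs
    exacts [F.cj_sh (eS n) _ (by omega) (by omega), lS, (Sup _).one_mem,
      F.cj_sh (oS n) _ (by omega) (by omega)]
  let h : ℕ → ℤ → Sup (B 14 \ B 0) := fun i j => if j < 0 then 1 else
    ⟨H i j.toNat, Sup.mono (F.sub (by omega) (by omega)) (H2 i _)⟩
  have hn : ∀ i (n : ℕ), (h i n : Perm X) = H i n := fun i n => by
    simp only [h]; rw [if_neg (by omega)]; rfl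
  have h0 : ∀ i, tr (h i) (0 : ℕ) = 1 := fun i => funext fun j => by
    unfold tr
    split_ifs with e
    · exact if_pos e
    · rfl
  refine ⟨h, fun i j => ?_, fun i j => ?_, fun i j hj => if_pos hj, fun b hb => ?_⟩
  · simp only [h]
    split_ifs
    exacts [G.one_mem, H1 _ _]
  · simp only [h]
    split_ifs
    exacts [(Sup _).one_mem, H2 _ _]
  have m1 : h 1 = Pi.mulSingle (0 : ℤ) (h 1 0) := funext fun j => by
    by_cases e : j = 0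
    · subst e; simp
    · rw [Pi.mulSingle_eq_of_ne e]
      simp only [h]
      split_ifs with e'
      · rfl
      · exact Subtype.ext (by simp only [H]; rw [if_neg (by omega), if_pos trivial, if_neg (by omega)]; rfl)
  have m2 : cj a 3 (cj b (-1) (cj a (-3) (wr F.wd (h 1)))) = g 0 := by
    have e1 : (h 1 0 : Perm X) = cj a 3 τ * g 0 * (cj a 3 τ)⁻¹ := hn 1 0
    have e2 := Sup.conj_congr (F.cj_ball (l' := 0) (g2' 0 3 (by simp) : g 0 ∈ Sup (B 3)) (-3) (by omega)) hb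
    have e3 : cj a (-3) (cj a 3 τ * g 0 * (cj a 3 τ)⁻¹) = τ * cj a (-3) (g 0) * τ⁻¹ := by
      simp only [cj]; group
    rw [m1, wr_single, cj_zero, e1, e3, ← e2]
    simp only [cj]; group
  have key : ∀ n : ℕ, cj a (-2) (wr F.wd (tr (h 0) n)) * g 0 * cj a 7 (wr F.wd (tr (h 2) n)) =
      g (2 * n) := by
    intro n
    induction n with
    | zero => rw [h0, h0, map_one, cj_one, cj_one]; simp
    | succ n ih =>
      rw [Nat.cast_succ, (wr_tr_succ F.wd (h 0) n).1, (wr_tr_succ F.wd (h 2) n).2, cj_mul, cj_mul,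
        hn, hn, cj_zpow, cj_zpow]
      simp only [H, if_true, OfNat.ofNat_ne_zero, OfNat.ofNat_ne_one, if_false, cj_cj]
      rw [show -2 + (14 * (n : ℤ) + (2 - 14 * n)) = 0 by ring,
        show 7 + (14 * (n : ℤ) + (-7 - 14 * n)) = 0 by ring, cj_zero, cj_zero,
        show 2 * (n + 1) = 2 * n + 2 by ring]
      calc _ = g (2 * n + 1) * (g (2 * n))⁻¹ * (cj a (-2) (wr F.wd (tr (h 0) n)) * g 0 *
            cj a 7 (wr F.wd (tr (h 2) n))) * ((g (2 * n + 1))⁻¹ * g (2 * n + 2)) := by group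
        _ = _ := by rw [ih]; group
  rw [m2]
  ext x
  obtain ⟨k1, e1⟩ := F.cov x
  obtain ⟨k2, e2⟩ := F.cov ((a ^ (7 : ℤ))⁻¹ x)
  obtain ⟨k3, e3⟩ := F.cov ((a ^ (-2 : ℤ))⁻¹ (g 0 (cj a 7 (wr F.wd (h 2)) x)))
  obtain ⟨N, hN⟩ : ∃ N : ℕ, k1 ≤ N ∧ k2 ≤ N ∧ k3 ≤ N := ⟨(max k1 (max k2 k3)).toNat, by omega⟩
  rw [← g3' (2 * N) N (by push_cast; omega) x (F.up e1 hN.1), ← key N]
  simp only [cj, Perm.mul_apply] at e3 ⊢
  rw [F.tr_eq _ (F.up e2 hN.2.1), F.tr_eq _ (F.up e3 hN.2.2)]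

theorem stdd (f : ℕ → Perm X) (hf : ∀ i, ∀ k : ℕ, St B G (f i) k) :
    ∃ b ∈ G, ∀ i, std a b i = f i := by
  choose h a1 a2 a3 a4 using fun i => F.frag (hf i)
  obtain ⟨b, b1, b2, b3⟩ := F.annul (fun i => h (i / 3) (i % 3)) (fun i => a1 _ _)
    (fun i => a2 _ _) fun i => a3 _ _
  refine ⟨b, b1, fun i => ?_⟩
  rw [std, b3, b3, b3, ← a4 i b b2, show 3 * i / 3 = i by omega, show (3 * i + 1) / 3 = i by omega,
    show (3 * i + 2) / 3 = i by omega, show 3 * i % 3 = 0 by omega,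
    show (3 * i + 1) % 3 = 1 by omega, show (3 * i + 2) % 3 = 2 by omega]

theorem normal (f c : ℕ → Perm X) (hc : ∀ i, c i = 1 ∨ c i = a⁻¹) (hf : ∀ i, f i * c i ∈ G) :
    ∃ ψ ∈ G, ∀ i k : ℕ, i ≤ k → St B G (ψ⁻¹ * f i * ψ * c i) k := by
  have c1 : ∀ i, ∀ φ ∈ G, φ⁻¹ * f i * φ * c i ∈ G := fun i φ hφ => by
    have e : (c i)⁻¹ * φ * c i ∈ G := by
      rcases hc i with e | e <;> rw [e]
      · simpa using hφ
      · simpa using (F.nor φ hφ).1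
    have := G.mul_mem (G.mul_mem (G.inv_mem hφ) (hf i)) e
    convert this using 1
    group
  have c2 : ∀ i k x, (x ∈ B k → c i x ∈ B k) ∧ (c i x ∈ B k → x ∈ B (k + 1)) := fun i k x => by
    rcases hc i with e | e <;> rw [e]
    · exact ⟨id, fun h => F.up h (by omega)⟩
    · exact ⟨fun h => (F.dil k _).1 (by simpa using F.up h (by omega)),
        fun h => by simpa using (F.dil k _).2 h⟩
  have step : ∀ (k : ℕ) (φ : G), ∃ κ : G, (∀ x ∈ B k, κ.1 x = x) ∧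
      (∀ x, φ.1 (κ.1 x) ∈ B k → x ∈ B (k + 1)) ∧ ∀ i ≤ k,
      (∃ g ∈ G, g ∈ Sup (B (k + 1)) ∧ ∀ x ∈ B k, φ.1 (κ.1 (g x)) = f i (φ.1 (c i x))) ∧
      ∀ x, ∀ z ∈ B k, f i (φ.1 (κ.1 x)) = φ.1 z → x ∈ B (k + 1) := by
    intro k φ
    choose g g1 l g2 g3 using fun i => F.ext (c1 i φ φ.2) k
    choose l' g4 using fun i => F.bd _ (G.inv_mem (c1 i φ φ.2)) k
    obtain ⟨l'', g5⟩ := F.bd _ (G.inv_mem φ.2) k
    obtain ⟨L, L1, L2⟩ : ∃ L, l'' ≤ L ∧ ∀ i ≤ k, l i ≤ L ∧ l' i ≤ L := by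
      obtain ⟨L, hL⟩ := ((Finset.range (k + 1)).image fun i => max (l i) (l' i)).bddAbove
      refine ⟨max L l'', by omega, fun i hi => ?_⟩
      have := hL (Finset.mem_coe.2 (Finset.mem_image.2 ⟨i, Finset.mem_range.2 (by omega), rfl⟩))
      omega
    obtain ⟨κ, k1, k2, k3⟩ := F.push k L
    have k4 : ∀ x, κ x ∈ B L → x ∈ B (k + 1) := fun x h => by_contra fun e => k3 x e h
    have k5 : ∀ x ∈ B k, κ x = x := fun x hx => k2 x fun e => e.2 hx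
    refine ⟨⟨κ, k1⟩, k5, fun x hx => k4 x (F.up (by simpa using g5 _ hx) L1), fun i hi =>
      ⟨⟨κ⁻¹ * g i * κ⁻¹⁻¹, G.mul_mem (G.mul_mem (G.inv_mem k1) (g1 i)) (by simpa using k1),
        Sup.conj (g2 i) fun x hx => k4 _ (by simpa using F.up hx (L2 i hi).1), fun x hx => ?_⟩,
        fun x z hz e => k4 x (F.up ?_ (L2 i hi).2)⟩⟩
    · simp [k5 x hx, g3 i x hx]
    · have := (c2 i _ _).1 (g4 i z hz)
      simpa [← e] using this
  choose κ s1 s2 s3 using step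
  let ψ : ℕ → G := fun n => Nat.rec 1 (fun k φ => φ * κ k φ) n
  have ψ1 : ∀ k x, (ψ (k + 1)).1 x = (ψ k).1 ((κ k (ψ k)).1 x) := fun k x => rfl
  have ψ2 : ∀ k m : ℕ, k ≤ m → ∀ x ∈ B k, (ψ m).1 x = (ψ k).1 x := fun k m h x hx => by
    induction m, h using Nat.le_induction with
    | base => rfl
    | succ m h ih => rw [ψ1, s1 m _ x (F.up hx (by omega)), ih]
  have cov : ∀ x, ∃ k : ℕ, x ∈ B k := fun x => by
    obtain ⟨k, hk⟩ := F.cov x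
    exact ⟨k.toNat, F.up hk (by omega)⟩
  choose N hN using cov
  have ψ3 : ∀ (k : ℕ), ∀ x ∈ B k, (ψ (N x)).1 x = (ψ k).1 x := fun k x hx => by
    rw [← ψ2 _ (max k (N x)) (by omega) x (hN x), ψ2 _ _ (by omega) x hx]
  have ψ4 : ∀ (k : ℕ), ∀ y ∈ B k, ((ψ (k + 1)).1)⁻¹ y ∈ B ((k + 1 : ℕ) : ℤ) := fun k y hy =>
    s2 k (ψ k) _ (by rw [← ψ1]; simpa using hy)
  let Ψ : Perm X := Equiv.ofBijective (fun x => (ψ (N x)).1 x) ⟨fun x y e => by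
    dsimp only at e
    rw [ψ3 (max (N x) (N y)) x (F.up (hN x) (by omega)),
      ψ3 (max (N x) (N y)) y (F.up (hN y) (by omega))] at e
    exact (ψ _).1.injective e, fun y => ⟨_, (ψ3 _ _ (ψ4 _ y (hN y))).trans (by simp)⟩⟩
  have Ψ1 : ∀ (k : ℕ), ∀ x ∈ B k, Ψ x = (ψ k).1 x := ψ3
  refine ⟨Ψ, F.loc Ψ (fun k => ⟨_, (ψ k.toNat).2, fun x hx => Ψ1 _ x (F.up hx (by omega))⟩)
    fun k => ⟨(k.toNat + 1 : ℕ), fun x hx => ?_⟩, fun i k hi => ?_⟩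
  · have e := ψ4 k.toNat _ (F.up hx (by omega))
    have e' : Ψ (((ψ (k.toNat + 1)).1)⁻¹ (Ψ x)) = Ψ x := (Ψ1 _ _ e).trans (by simp)
    rwa [Ψ.injective e'] at e
  obtain ⟨⟨g, g1, g2, g3⟩, g4⟩ := s3 k (ψ k) i hi
  refine ⟨⟨g, g1, g2, fun x hx => ?_⟩, fun x hx => ?_⟩
  · simp only [Perm.mul_apply]
    rw [Perm.eq_inv_iff_eq, Ψ1 (k + 1) _ (Sup.maps g2 (F.up hx (by omega))), ψ1, g3 x hx,
      Ψ1 k _ ((c2 i k x).1 hx)]
  · have e := g4 (((ψ (k + 1)).1)⁻¹ (Ψ (c i x))) _ hx (by rw [← ψ1, ← Ψ1 k _ hx]; simp)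
    have e' : Ψ (((ψ (k + 1)).1)⁻¹ (Ψ (c i x))) = Ψ (c i x) := (Ψ1 (k + 1) _ e).trans (by simp)
    rw [Ψ.injective e'] at e
    exact F.up ((c2 i _ x).2 e) (by omega)

theorem main (f c : ℕ → Perm X) (hc : ∀ i, c i = 1 ∨ c i = a⁻¹) (hf : ∀ i, f i * c i ∈ G) :
    ∃ ψ ∈ G, ∃ b ∈ G, ∀ i, ψ⁻¹ * f i * ψ * c i = uw a b i := by
  obtain ⟨ψ, h1, h2⟩ := F.normal f c hc hf
  obtain ⟨b, b1, b2⟩ := F.stdd (fun i => cj a (-i) (ψ⁻¹ * f i * ψ * c i)) fun i k => by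
    obtain ⟨⟨g, g1, g2, g3⟩, g4⟩ := h2 i (k + i) (by omega)
    have e : ∀ (l : ℤ) x, (a ^ (-i : ℤ))⁻¹ x ∈ B (l + i) ↔ x ∈ B l := fun l x => by
      rw [← zpow_neg, neg_neg, F.dilz]
    refine ⟨⟨cj a (-i) g, F.cjm g1 _, F.cj_ball g2 _ (by push_cast; omega), fun x hx => ?_⟩,
      fun x hx => ?_⟩
    · simp only [cj]
      rw [Perm.mul_apply, Perm.mul_apply, g3 _ (by push_cast; exact (e k x).2 hx)]
      rfl
    · have := g4 ((a ^ (-i : ℤ))⁻¹ x) (by push_cast; simpa [cj] using (e k _).2 hx)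
      exact (e _ x).1 (F.up this (by push_cast; omega))
  exact ⟨ψ, h1, b, b1, fun i => by rw [uw, b2, cj_cj, add_neg_cancel, cj_zero]⟩

omit F in
theorem uw_conj (ψ a b : Perm X) (i : ℕ) :
    uw (ψ * a * ψ⁻¹) (ψ * b * ψ⁻¹) i = ψ * uw a b i * ψ⁻¹ :=
  (map_uw (MulAut.conj ψ).toMonoidHom a b i).symm

theorem univ (ha : a ∈ G) (f : ℕ → Perm X) (hf : ∀ i, f i ∈ G) :
    ∃ a' ∈ G, ∃ b ∈ G, ∀ i, uw a' b i = f i := by
  obtain ⟨ψ, h1, b, h2, h⟩ := F.main f (fun _ => 1) (fun _ => Or.inl rfl) (by simpa using hf)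
  refine ⟨_, G.mul_mem (G.mul_mem h1 ha) (G.inv_mem h1), _,
    G.mul_mem (G.mul_mem h1 h2) (G.inv_mem h1), fun i => ?_⟩
  rw [uw_conj, ← h]; group

theorem full (f : ℕ → Perm X) (hf : ∀ i, f i ∈ G ∨ f i * a⁻¹ ∈ G) :
    ∃ ψ ∈ G, ∃ b ∈ G, ∀ i, f i = uw (ψ * a * ψ⁻¹) b i ∨
      f i = uw (ψ * a * ψ⁻¹) b i * (ψ * a * ψ⁻¹) := by
  classical
  obtain ⟨ψ, h1, b, h2, h⟩ := F.main f (fun i => if f i ∈ G then 1 else a⁻¹)
    (fun i => by split_ifs <;> simp) fun i => by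
      split_ifs with e
      · simpa using e
      · exact (hf i).resolve_left e
  refine ⟨ψ, h1, _, G.mul_mem (G.mul_mem h1 h2) (G.inv_mem h1), fun i => ?_⟩
  rw [uw_conj, ← h]
  split_ifs
  · left; group
  · right; group

end Fr

end Pool.Agent.Lib.MP_a2d0bb_al.Fil
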