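import Mathlib

/-!
Supports, wandering sets, and the universal words.
-/

set_option autoImplicit false

open Equiv
open scoped commutatorElement

noncomputable section

namespace Pool.Agent.Lib.MP_a2d0bb_al.Fil

/-! ### Words in two letters -/

section Words

variable {Γ Δ : Type*} [Group Γ] [Group Δ]

/-- Conjugation by a power. -/
def cj (x : Γ) (n : ℤ) (y : Γ) : Γ := x ^ n * y * (x ^ n)⁻¹

/-- The commutator of two slots. -/
def cm (x y : Γ) (i : ℕ) : Γ := ⁅cj x (-2 ^ (2 * i)) y, cj x (-2 ^ (2 * i + 1)) y⁆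

/-- One residue class of blocks. -/
def bas (a b : Γ) (i : ℕ) (ρ : ℕ) : Γ :=
  cj (a ^ (14 : ℤ)) (ρ - (18 * i + 20)) (cm b (cj (a ^ (14 : ℤ)) (-1) b) (3 * i + ρ))

/-- All blocks. -/
def tri (a b : Γ) (i : ℕ) : Γ := bas a b i 0 * bas a b i 1 * bas a b i 2

/-- Elements supported in shells with gaps. -/
def ann (a b : Γ) (i : ℕ) : Γ := tri a b (2 * i) * cj a 10 (tri a b (2 * i + 1))

/-- Elements of bounded displacement. -/
def std (a b : Γ) (i : ℕ) : Γ := cj a (-2) (ann a b (3 * i)) *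
  cj a 3 (cj b (-1) (cj a (-3) (ann a b (3 * i + 1)))) * cj a 7 (ann a b (3 * i + 2))

/-- The universal words. -/
def uw (a b : Γ) (i : ℕ) : Γ := cj a i (std a b i)

theorem map_cj (φ : Γ →* Δ) (x : Γ) (n : ℤ) (y : Γ) : φ (cj x n y) = cj (φ x) n (φ y) := by
  simp [cj]

theorem map_cm (φ : Γ →* Δ) (x y : Γ) (i : ℕ) : φ (cm x y i) = cm (φ x) (φ y) i := by
  simp [cm, map_cj, map_commutatorElement]

theorem map_uw (φ : Γ →* Δ) (a b : Γ) (i : ℕ) : φ (uw a b i) = uw (φ a) (φ b) i := by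
  simp [uw, std, ann, tri, bas, map_cj, map_cm]

theorem cj_cj (x : Γ) (m n : ℤ) (y : Γ) : cj x m (cj x n y) = cj x (m + n) y := by
  simp only [cj, zpow_add]; group

theorem cj_zero (x y : Γ) : cj x 0 y = y := by simp [cj]

theorem cj_mul (x : Γ) (n : ℤ) (y z : Γ) : cj x n (y * z) = cj x n y * cj x n z := by
  simp only [cj]; group

theorem cj_inv (x : Γ) (n : ℤ) (y : Γ) : cj x n y⁻¹ = (cj x n y)⁻¹ := by
  simp only [cj]; group

theorem cj_one (x : Γ) (n : ℤ) : cj x n 1 = 1 := by simp [cj]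

theorem cj_zpow (x : Γ) (m n : ℤ) (y : Γ) : cj (x ^ m) n y = cj x (m * n) y := by
  simp only [cj, zpow_mul]

theorem cm_one_right (x : Γ) (i : ℕ) : cm x 1 i = 1 := by simp [cm, cj]

theorem cm_one_left (y : Γ) (i : ℕ) : cm 1 y i = 1 := by simp [cm, cj]

end Words

theorem sidon {a b c d : ℕ} (h : (2 : ℤ) ^ a + 2 ^ b = 2 ^ c + 2 ^ d) (hb : b ≠ c) : a = c := by
  have key : ∀ a b c d : ℕ, (2 : ℤ) ^ a + 2 ^ b = 2 ^ c + 2 ^ d → a ≤ b → d ≤ b := by
    intro a b c d h hab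
    by_contra hd
    have h1 : (2 : ℤ) ^ a ≤ 2 ^ b := pow_le_pow_right₀ (by norm_num) hab
    have h2 : (2 : ℤ) ^ (b + 1) ≤ 2 ^ d := pow_le_pow_right₀ (by norm_num) (by omega)
    have h3 : (0 : ℤ) < 2 ^ c := by positivity
    rw [pow_succ] at h2
    linarith
  have inj : ∀ a c : ℕ, (2 : ℤ) ^ a = 2 ^ c → a = c := fun a c h =>
    pow_right_injective₀ (by norm_num) (by norm_num) h
  rcases le_total a b with h1 | h1 <;> rcases le_total c d with h2 | h2
  · have := le_antisymm (key a b c d h h1) (key c d a b h.symm h2)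
    subst this
    exact inj _ _ (by linarith)
  · exact absurd (le_antisymm (key d c a b (by linarith) h2) (key a b d c (by linarith) h1)) hb
  · have := le_antisymm (key b a c d (by linarith) h1) (key c d b a (by linarith) h2)
    subst this
    exact absurd (inj _ _ (by linarith)) hb
  · exact le_antisymm (key d c b a (by linarith) h2) (key b a d c (by linarith) h1)

/-! ### Supports -/

variable {X : Type*}

/-- Permutations that fix all points outside `A`. -/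
def Sup (A : Set X) : Subgroup (Perm X) where
  carrier := {g | ∀ x, x ∉ A → g x = x}
  mul_mem' := fun hg hh x hx => by rw [Perm.mul_apply, hh x hx, hg x hx]
  one_mem' := fun _ _ => rfl
  inv_mem' := fun hg x hx => by rw [Perm.inv_eq_iff_eq, hg x hx]

namespace Sup

variable {A A' : Set X} {g g' c c' : Perm X} {x : X}

theorem maps (hg : g ∈ Sup A) (hx : x ∈ A) : g x ∈ A := by
  by_contra h
  exact h ((g.injective (hg _ h)).symm ▸ hx)

theorem mono (h : A ⊆ A') (hg : g ∈ Sup A) : g ∈ Sup A' := fun x hx => hg x fun e => hx (h e)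

theorem conj (hg : g ∈ Sup A) (h : ∀ x ∈ A, c x ∈ A') : c * g * c⁻¹ ∈ Sup A' := fun x hx => by
  rw [Perm.mul_apply, Perm.mul_apply, hg _ fun e => hx (by simpa using h _ e)]
  simp

theorem comm (hg : g ∈ Sup A) (hg' : g' ∈ Sup A') (h : ∀ x ∈ A, x ∉ A') : Commute g g' := by
  ext x
  rw [Perm.mul_apply, Perm.mul_apply]
  by_cases hx : x ∈ A
  · rw [hg' x (h x hx), hg' _ (h _ (maps hg hx))]
  · rw [hg x hx]
    by_cases hx' : x ∈ A'
    · exact hg _ fun e => h _ e (maps hg' hx')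
    · rw [hg' x hx', hg x hx]

theorem conj_congr (hg : g ∈ Sup A) (h : ∀ x ∈ A, c x = c' x) :
    c * g * c⁻¹ = c' * g * c'⁻¹ := by
  have h1 : c'⁻¹ * c ∈ Sup Aᶜ := fun x hx => by
    rw [Perm.mul_apply, h x (not_not.1 hx)]; simp
  have h2 := (comm hg h1 fun x hx e => e hx).eq
  calc c * g * c⁻¹ = c' * (c'⁻¹ * c * g) * c⁻¹ := by group
    _ = c' * g * c'⁻¹ := by rw [← h2]; group

end Sup

/-! ### Wandering sets -/

/-- The translates of `W` under the powers of `t` are pairwise disjoint. -/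
def Wd (t : Perm X) (W : Set X) : Prop := ∀ (j : ℤ) x, x ∈ W → (t ^ j) x ∈ W → j = 0

theorem wd_of {t : Perm X} {W : Set X} (h : ∀ n : ℕ, ∀ x ∈ W, (t ^ (n + 1)) x ∉ W) : Wd t W := by
  intro j x hx hj
  rcases lt_trichotomy j 0 with e | e | e
  · obtain ⟨n, rfl⟩ : ∃ n : ℕ, j = -((n + 1 : ℕ) : ℤ) := ⟨(-j - 1).toNat, by omega⟩
    refine absurd ?_ (h n _ hj)
    rwa [← Perm.mul_apply, zpow_neg, zpow_natCast, mul_inv_cancel]
  · exact e
  · obtain ⟨n, rfl⟩ : ∃ n : ℕ, j = ((n + 1 : ℕ) : ℤ) := ⟨(j - 1).toNat, by omega⟩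
    exact absurd (by rwa [zpow_natCast] at hj) (h n x hx)

theorem orb_cases (t : Perm X) (V : Set X) (x : X) :
    (∃ j : ℤ, ∃ y ∈ V, x = (t ^ j) y) ∨ ∀ j : ℤ, (t ^ j)⁻¹ x ∉ V := by
  by_cases h : ∃ j : ℤ, (t ^ j)⁻¹ x ∈ V
  · obtain ⟨j, hj⟩ := h
    exact Or.inl ⟨j, _, hj, by simp⟩
  · exact Or.inr fun j hj => h ⟨j, hj⟩

open Classical in
/-- The map that acts on the translate number `j` like `γ j`. -/
def wrF (t : Perm X) (W : Set X) (γ : ℤ → Perm X) (x : X) : X :=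
  if h : ∃ j : ℤ, (t ^ j)⁻¹ x ∈ W then (t ^ h.choose) (γ h.choose ((t ^ h.choose)⁻¹ x)) else x

variable {t : Perm X} {W V : Set X}

theorem wrF_in (hW : Wd t W) (γ : ℤ → Perm X) (j : ℤ) {x : X} (hx : x ∈ W) :
    wrF t W γ ((t ^ j) x) = (t ^ j) (γ j x) := by
  have h : ∃ i : ℤ, (t ^ i)⁻¹ ((t ^ j) x) ∈ W := ⟨j, by simpa using hx⟩
  have e : h.choose = j := by
    have h1 := h.choose_spec
    rw [← Perm.mul_apply, ← zpow_neg, ← zpow_add] at h1
    have := hW _ x hx h1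
    omega
  rw [wrF, dif_pos h, e]
  simp

theorem wrF_out (γ : ℤ → Perm X) {x : X} (h : ∀ j : ℤ, (t ^ j)⁻¹ x ∉ W) : wrF t W γ x = x :=
  dif_neg fun ⟨j, hj⟩ => h j hj

theorem wrF_mul (hW : Wd t W) (γ δ : ℤ → Sup W) (x : X) :
    wrF t W (fun j => γ j) (wrF t W (fun j => δ j) x) = wrF t W (fun j => (γ * δ) j) x := by
  rcases orb_cases t W x with ⟨j, y, hy, rfl⟩ | h
  · rw [wrF_in hW _ j hy, wrF_in hW _ j hy, wrF_in hW _ j (Sup.maps (δ j).2 hy)]
    rfl
  · rw [wrF_out _ h, wrF_out _ h, wrF_out _ h]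

theorem wrF_one (hW : Wd t W) (x : X) : wrF t W (fun j => (1 : ℤ → Sup W) j) x = x := by
  rcases orb_cases t W x with ⟨j, y, hy, rfl⟩ | h
  · exact wrF_in hW _ j hy
  · exact wrF_out _ h

/-- The homomorphism from the unrestricted power. -/
def wr (hW : Wd t W) : (ℤ → Sup W) →* Perm X where
  toFun γ := ⟨wrF t W fun j => γ j, wrF t W fun j => γ⁻¹ j,
    fun x => by rw [wrF_mul hW, inv_mul_cancel, wrF_one hW],
    fun x => by rw [wrF_mul hW, mul_inv_cancel, wrF_one hW]⟩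
  map_one' := Perm.ext fun x => wrF_one hW x
  map_mul' γ δ := Perm.ext fun x => (wrF_mul hW γ δ x).symm

theorem wr_in (hW : Wd t W) (γ : ℤ → Sup W) (j : ℤ) {x : X} (hx : x ∈ W) :
    wr hW γ ((t ^ j) x) = (t ^ j) ((γ j : Perm X) x) := wrF_in hW (fun j => γ j) j hx

theorem wr_out (hW : Wd t W) (γ : ℤ → Sup W) {x : X} (h : ∀ j : ℤ, (t ^ j)⁻¹ x ∉ W) :
    wr hW γ x = x := wrF_out (fun j => (γ j : Perm X)) h

theorem wr_fix (hW : Wd t W) (γ : ℤ → Sup W) {x : X}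
    (h : ∀ j : ℤ, ∀ y ∈ W, x = (t ^ j) y → (γ j : Perm X) y = y) : wr hW γ x = x := by
  rcases orb_cases t W x with ⟨j, y, hy, rfl⟩ | h'
  · rw [wr_in hW γ j hy, h j y hy rfl]
  · exact wr_out hW γ h'

theorem wr_conj (hW : Wd t W) {c : Perm X} (hc : Commute c t) (γ δ : ℤ → Sup W) (hV : V ⊆ W)
    (hV' : ∀ x ∈ V, c x ∈ W) (h1 : ∀ j, (γ j : Perm X) ∈ Sup V)
    (h2 : ∀ j, (δ j : Perm X) = c * γ j * c⁻¹) : wr hW δ = c * wr hW γ * c⁻¹ := by
  have hc' : ∀ (j : ℤ) y, c ((t ^ j) y) = (t ^ j) (c y) := fun j y => by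
    rw [← Perm.mul_apply, (hc.zpow_right j).eq, Perm.mul_apply]
  rw [eq_mul_inv_iff_mul_eq]
  ext x
  rw [Perm.mul_apply, Perm.mul_apply]
  rcases orb_cases t V x with ⟨j, y, hy, rfl⟩ | h
  · rw [wr_in hW γ j (hV hy), hc', hc', wr_in hW δ j (hV' y hy), h2]
    simp
  · rw [wr_fix hW γ fun j y _ e => h1 j y fun hy => h j (by simpa [e] using hy), wr_fix hW δ]
    intro j y _ e
    have e' : c⁻¹ y = (t ^ j)⁻¹ x := by
      rw [Perm.inv_eq_iff_eq, ← (t ^ j).injective.eq_iff, ← hc', ← e]; simp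
    rw [h2, Perm.mul_apply, Perm.mul_apply, h1 j _ (e' ▸ h j)]
    simp

theorem wr_shift (hW : Wd t W) (γ : ℤ → Sup W) (c : ℤ) :
    cj t c (wr hW γ) = wr hW fun j => γ (j - c) := by
  rw [cj, mul_inv_eq_iff_eq_mul]
  ext x
  rw [Perm.mul_apply, Perm.mul_apply]
  rcases orb_cases t W x with ⟨j, y, hy, rfl⟩ | h
  · rw [wr_in hW γ j hy, ← Perm.mul_apply, ← Perm.mul_apply (t ^ c), ← zpow_add,
      wr_in hW _ _ hy, add_sub_cancel_left]
  · rw [wr_out hW γ h, wr_out hW]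
    intro j
    have := h (j - c)
    rwa [zpow_sub, mul_inv_rev, inv_inv, ← ((Commute.refl t).zpow_zpow j c).inv_left.eq,
      Perm.mul_apply] at this

theorem wr_single (hW : Wd t W) (j : ℤ) (g : Sup W) : wr hW (Pi.mulSingle j g) = cj t j g := by
  ext x
  rcases orb_cases t W x with ⟨i, y, hy, rfl⟩ | h
  · rw [wr_in hW _ i hy]
    by_cases e : i = j
    · subst e; simp [cj]
    · have : (t ^ j)⁻¹ ((t ^ i) y) ∉ W := fun h => e (by
        rw [← Perm.mul_apply, ← zpow_neg, ← zpow_add] at h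
        have := hW _ y hy h
        omega)
      rw [Pi.mulSingle_eq_of_ne e, cj, Perm.mul_apply, Perm.mul_apply, g.2 _ this]
      simp
  · rw [wr_out hW _ h, cj, Perm.mul_apply, Perm.mul_apply, g.2 _ (h j)]
    simp

theorem wr_mem (hW : Wd t W) (G : Subgroup (Perm X)) (s : Finset ℤ) (γ : ℤ → Sup W)
    (h1 : ∀ j, cj t j (γ j : Perm X) ∈ G) (h2 : ∀ j ∉ s, γ j = 1) : wr hW γ ∈ G := by
  induction s using Finset.induction_on generalizing γ with
  | empty =>
    have : γ = 1 := funext fun j => h2 j (by simp)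
    rw [this, map_one]; exact G.one_mem
  | insert i s _ ih =>
    have e : γ = Pi.mulSingle i (γ i) * Function.update γ i 1 := funext fun j => by
      by_cases h : j = i
      · subst h; simp
      · simp [h]
    rw [e, map_mul, wr_single]
    refine G.mul_mem (h1 i) (ih _ (fun j => ?_) fun j hj => ?_)
    · by_cases h : j = i
      · subst h; simp [cj_one]
      · simpa [h] using h1 j
    · by_cases h : j = i
      · subst h; simp
      · simpa [h] using h2 j (by simp [h, hj])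

/-- Truncation. -/
def tr (γ : ℤ → Sup W) (N : ℤ) : ℤ → Sup W := fun j => if j < N then γ j else 1

theorem wr_tr (hW : Wd t W) (γ : ℤ → Sup W) {N : ℤ} {x : X}
    (h : ∀ j : ℤ, ∀ y ∈ W, x = (t ^ j) y → j < N) : wr hW (tr γ N) x = wr hW γ x := by
  rcases orb_cases t W x with ⟨j, y, hy, rfl⟩ | h'
  · rw [wr_in hW _ j hy, wr_in hW _ j hy, tr, if_pos (h j y hy rfl)]
  · rw [wr_out hW _ h', wr_out hW _ h']

theorem wr_tr_succ (hW : Wd t W) (γ : ℤ → Sup W) (N : ℤ) :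
    wr hW (tr γ (N + 1)) = cj t N (γ N) * wr hW (tr γ N) ∧
      wr hW (tr γ (N + 1)) = wr hW (tr γ N) * cj t N (γ N) := by
  rw [← wr_single hW, ← map_mul, ← map_mul]
  constructor <;> congr 1 <;> funext j <;> rcases lt_trichotomy j N with e | rfl | e
  · simp [tr, e, e.ne, e.le]
  · simp [tr]
  · simp [tr, e.ne', e.not_ge, e.not_gt]
  · simp [tr, e, e.ne, e.le]
  · simp [tr]
  · simp [tr, e.ne', e.not_ge, e.not_gt]

/-- The slots. -/
def sl (β : ℕ → Sup W) : ℤ → Sup W := Function.extend (fun m : ℕ => (2 : ℤ) ^ m) β 1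

theorem sl_pow (β : ℕ → Sup W) (m : ℕ) : sl β (2 ^ m) = β m :=
  (pow_right_injective₀ (by norm_num) (by norm_num)).extend_apply _ _ m

theorem sl_cases (β : ℕ → Sup W) (j : ℤ) : (∃ m : ℕ, j = 2 ^ m) ∨ sl β j = 1 := by
  by_cases h : ∃ m : ℕ, (2 : ℤ) ^ m = j
  · exact Or.inl (h.imp fun _ e => e.symm)
  · exact Or.inr (Function.extend_apply' _ _ _ h)

theorem cm_sl (hW : Wd t W) (β : ℕ → Sup W) (i : ℕ) :
    cm t (wr hW (sl β)) i = ⁅(β (2 * i) : Perm X), (β (2 * i + 1) : Perm X)⁆ := by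
  rw [cm, wr_shift, wr_shift, ← map_commutatorElement]
  have : ⁅fun j => sl β (j - -2 ^ (2 * i)), fun j => sl β (j - -2 ^ (2 * i + 1))⁆ =
      Pi.mulSingle (0 : ℤ) ⁅β (2 * i), β (2 * i + 1)⁆ := funext fun j => by
    show ⁅sl β (j - -2 ^ (2 * i)), sl β (j - -2 ^ (2 * i + 1))⁆ = _
    by_cases h : j = 0
    · subst h; simp [sl_pow]
    · rw [Pi.mulSingle_eq_of_ne h]
      rcases sl_cases β (j - -2 ^ (2 * i)) with ⟨m, e⟩ | e
      · rcases sl_cases β (j - -2 ^ (2 * i + 1)) with ⟨m', e'⟩ | e'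
        · have := sidon (a := m) (b := 2 * i + 1) (c := 2 * i) (d := m') (by linarith) (by omega)
          subst this
          exact absurd (by linarith) h
        · rw [e']; simp
      · rw [e]; simp
  rw [this, wr_single, cj_zero]
  rfl

theorem cm_wd (hW : Wd t W) {g : Perm X} (hg : g ∈ Sup W) (i : ℕ) : cm t g i = 1 := by
  have e : ∀ n : ℤ, cj t n g = wr hW (Pi.mulSingle n ⟨g, hg⟩) := fun n =>
    (wr_single hW n ⟨g, hg⟩).symm
  rw [cm, e, e, ← map_commutatorElement, commutatorElement_eq_one_iff_commute.2, map_one]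
  refine Pi.mulSingle_commute ?_ _ _
  have : (0 : ℤ) < 2 ^ (2 * i) := by positivity
  rw [pow_succ]
  omega

end Pool.Agent.Lib.MP_a2d0bb_al.Fil
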